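import Pool.Agent.Helper73.MI.Stmts
import Pool.Agent.Helper73.SY.Final

/-!
# Assembly of the mirror theorem from the modules (project MP_a2630c_MI)
-/

open MeasureTheory Set Metric Real
open scoped RealInnerProductSpace ENNReal
open Pool.Agent.Helper16.Buoy (E cap IsEllipsoid Homothetic buoyancyBody)
open Pool.Agent.Helper73.HV (supp)
open Pool.Agent.Helper73.LR (CB vol GG Sol aff)
open Pool.Agent.Helper73.SY (CS Dat sg ON iot rr gg bb iot_iot iot_add ggL)
open Pool.Agent.Helper79.SY (WW)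

namespace Pool.Agent.Helper73.MI

theorem md_of (GEO : S_geo) (BAS : S_bas) (DER : S_der) (INT : S_int) {n : ℕ} {K : Set (E n)}
    {δ lam : ℝ} {X : E n → E n} {t : E n → ℝ} {e : E n} (hD : DatC K δ lam X t) (he : ‖e‖ = 1)
    (hs : sg e '' K = K) :
    MD (PD K e) (FF K e) (YY X e) (xx X e) (lv t e) (PV X e) lam := by
  obtain ⟨g1, g2, g3, g4, g5, g6, g7, g8, g9⟩ := GEO hD.dat he hs
  obtain ⟨b1, b2, b3, b4, b5, b6, b7, b8⟩ := BAS hD.dat he hs
  obtain ⟨d1, d2, d3, d4, d5⟩ := DER hD he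
  obtain ⟨i1, i2, i3, i4⟩ := INT hD he hs
  have hsq : (fun y => √(FF K e y)) = RR K e := by
    funext y
    exact Real.sqrt_sq (g3 y)
  exact {
    lpos := hD.dat.cs.lpos
    Dopen := isOpen_interior
    Dconv := g4
    Dbdd := g5
    Fcont := g6
    Fpos := g7
    Fzero := g8
    Fconc := by rw [hsq]; exact g9
    Ymem := b1
    Yinj := b2
    Ysurj := b3
    Yder := d1
    Pcont := d2
    Psymm := d3
    xpos := b4
    xder := d4
    FY := b5
    tcont := b6
    tup := b7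
    tlo := b8
    inert := i1
    mom := i2
    Plow := d5
    svol := i3
    low := i4 }

/-- A centred solution with a mirror symmetry is an ellipsoid. -/
theorem mirror (DTC : S_dtc) (GEO : S_geo) (BAS : S_bas) (DER : S_der) (INT : S_int)
    (IFT : S_ift.{0}) (PRP : S_prp.{0}) (QUA : S_qua.{0}) (ELM : S_elm) {n : ℕ} (hn : 1 ≤ n)
    {K : Set (E n)} {δ lam : ℝ} {e : E n} (hK : CS K δ lam) (he : ‖e‖ = 1)
    (hs : sg e '' K = K) : IsEllipsoid K := by
  obtain ⟨X, t, hD⟩ := Pool.Agent.Helper79.SY.dat hn hK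
  have hC := DTC hn hD
  have hM := md_of GEO BAS DER INT hC he hs
  obtain ⟨vv, Pi, hI⟩ := IFT hM
  exact ELM hD he hs (QUA hM hI (PRP hM hI))

theorem sg_rr {n : ℕ} {p q : E n} (x : E n) : sg ((√2)⁻¹ • (p - q)) x = rr p q x := by
  unfold sg rr
  have h2 : (√2)⁻¹ * (√2)⁻¹ = (1 / 2 : ℝ) := by
    rw [← mul_inv, Real.mul_self_sqrt (by norm_num)]; norm_num
  rw [inner_smul_left, conj_trivial, smul_smul]
  have h3 : 2 * ((√2)⁻¹ * (inner ℝ (p - q) x : ℝ)) * (√2)⁻¹ =
      2 * ((√2)⁻¹ * (√2)⁻¹) * inner ℝ (p - q) x := by ring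
  rw [h3, h2]
  norm_num

theorem norm_pq {n : ℕ} {p q : E n} (h : ON p q) : ‖(√2)⁻¹ • (p - q)‖ = 1 := by
  have h1 : ‖p - q‖ ^ 2 = 2 := by
    rw [norm_sub_sq_real, h.p1, h.q1, h.pq]; norm_num
  have h2 : ‖p - q‖ = √2 := by
    rw [← h1, Real.sqrt_sq (norm_nonneg _)]
  rw [norm_smul, h2, norm_inv, Real.norm_eq_abs, abs_of_nonneg (Real.sqrt_nonneg 2)]
  exact inv_mul_cancel₀ (by positivity)

/-- A centred solution with a half-turn symmetry is an ellipsoid. -/
theorem half_turn (hmir : ∀ {n : ℕ}, 1 ≤ n → ∀ {K : Set (E n)} {δ lam : ℝ} {e : E n},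
    CS K δ lam → ‖e‖ = 1 → sg e '' K = K → IsEllipsoid K) {n : ℕ} (hn : 1 ≤ n)
    {K : Set (E n)} {δ lam : ℝ} {p q : E n} (hK : CS K δ lam) (h : ON p q)
    (hi : iot p q '' K = K) : IsEllipsoid K := by
  obtain ⟨ε, hε, hsym⟩ := (Pool.Agent.Helper73.SY.loc_refl hn hK h hi).1
  have hK2 := Pool.Agent.Helper94.SY.img hK (ggL h.q1 hε.ne')
  have himg : (ggL h.q1 hε.ne' : E n → E n) '' K = gg ε q '' K := rfl
  rw [himg] at hK2
  have hs : sg ((√2)⁻¹ • (p - q)) '' (gg ε q '' K) = gg ε q '' K := by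
    have : (sg ((√2)⁻¹ • (p - q)) : E n → E n) = rr p q := by funext x; exact sg_rr x
    rw [this]; exact hsym
  have hE := hmir hn hK2 (norm_pq h) hs
  have e1 : gg ε q '' K = aff (ggL h.q1 hε.ne') 0 '' K := by
    apply image_congr
    intro x _
    exact (Pool.Agent.Helper73.SY.aff_zero (ggL h.q1 hε.ne') x).symm
  rw [e1] at hE
  exact Pool.Agent.Helper96.LR.ell_aff _ 0 hE

theorem flip1_eq {n : ℕ} (i : Fin n) (x : E n) :
    sg (bb n i) x = WithLp.toLp 2 (fun k => if k ∈ ({i} : Finset (Fin n)) then - x k else x k) := by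
  ext k
  unfold sg bb
  simp only [EuclideanSpace.inner_single_left, map_one, one_mul, PiLp.sub_apply, PiLp.smul_apply,
    smul_eq_mul, Finset.mem_singleton, PiLp.single_apply]
  by_cases h1 : k = i
  · subst h1
    rw [if_pos rfl, if_pos rfl]
    ring
  · rw [if_neg h1, if_neg h1]
    ring

theorem flip2_eq {n : ℕ} {i j : Fin n} (hij : i ≠ j) (x : E n) :
    iot (bb n i) (bb n j) x =
      WithLp.toLp 2 (fun k => if k ∈ ({i, j} : Finset (Fin n)) then - x k else x k) := by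
  rw [Pool.Agent.Helper73.SY.flip_eq hij]
  congr 1
  funext k
  by_cases h : k = i ∨ k = j
  · rw [if_pos h, if_pos (by simpa using h)]
  · rw [if_neg h, if_neg (by simpa using h)]

theorem sg_sg {n : ℕ} {e : E n} (he : ‖e‖ = 1) (x : E n) : sg e (sg e x) = x := by
  have h1 : (inner ℝ e (sg e x) : ℝ) = -inner ℝ e x := by
    unfold sg
    rw [inner_sub_right, inner_smul_right, real_inner_self_eq_norm_sq, he]
    ring
  conv_lhs => rw [sg, h1]
  unfold sg
  module

theorem sg_image_of_sub {n : ℕ} {e : E n} (he : ‖e‖ = 1) {K : Set (E n)}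
    (hK : ∀ x ∈ K, sg e x ∈ K) : sg e '' K = K := by
  apply Subset.antisymm
  · rintro _ ⟨x, hx, rfl⟩
    exact hK x hx
  · intro x hx
    exact ⟨sg e x, hK x hx, sg_sg he x⟩

theorem sg_add {n : ℕ} (e x y : E n) : sg e (x + y) = sg e x + sg e y := by
  unfold sg; rw [inner_add_right]; module

theorem sg_translate {n : ℕ} {e : E n} {K : Set (E n)} (hK : sg e '' K = K) {c : E n}
    (hc : sg e c = c) : sg e '' ((fun x => x + c) '' K) = (fun x => x + c) '' K := by
  rw [image_image]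
  have h1 : (fun x => sg e (x + c)) = fun x => sg e x + c := by
    funext x; rw [sg_add, hc]
  rw [h1, ← image_image (fun x => x + c) (sg e) K, hK]

/-- The theorem. -/
theorem mirror_bodies_of (CEM : S_cem)
    (hmir : ∀ {n : ℕ}, 1 ≤ n → ∀ {K : Set (E n)} {δ lam : ℝ} {e : E n},
      CS K δ lam → ‖e‖ = 1 → sg e '' K = K → IsEllipsoid K)
    {n : ℕ} (hn : 1 ≤ n) {K : Set (E n)} {d : ℝ} (h1 : Convex ℝ K)
    (h2 : IsCompact K) (h3 : (interior K).Nonempty) (hd0 : 0 < d)
    (hd1 : ENNReal.ofReal d < volume K) (hh : Homothetic K (buoyancyBody K d))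
    (T : E n ≃ᵃ[ℝ] E n) (J : Finset (Fin n)) (hJ : J.card = 1 ∨ J.card = 2)
    (hT : ∀ x ∈ T '' K,
      (WithLp.toLp 2 (fun k => if k ∈ J then - x k else x k) : E n) ∈ T '' K) :
    IsEllipsoid K := by
  have hK : CB K := ⟨h1, h2, h3⟩
  have hv := Pool.Agent.Helper96.LR.vol_pos hK
  have hd1' : d < vol K := by
    rw [← Pool.Agent.Helper73.LR.ofReal_vol hK] at hd1
    exact (ENNReal.ofReal_lt_ofReal_iff hv).1 hd1
  have hs := Pool.Agent.Helper73.LR.sol_of_density Pool.Agent.Helper73.LR.loc_sol_of_hom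
    hn hK hd0 hd1' hh
  let L : E n ≃L[ℝ] E n := T.linear.toContinuousLinearEquiv
  have hTx : ∀ x, T x = aff L (T 0) x := by
    intro x
    have := T.toAffineMap.map_vadd (0 : E n) x
    simpa [aff, L] using this
  have hTK : T '' K = aff L (T 0) '' K := by
    apply image_congr
    intro x _
    exact hTx x
  obtain ⟨hK1, hs1⟩ := Pool.Agent.Helper96.LR.sol_aff hK hs L (T 0)
  rw [← hTK] at hK1 hs1
  have hv1 := Pool.Agent.Helper96.LR.vol_pos hK1
  set θ := d / vol K with hθ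
  have hθ0 : 0 < θ := div_pos hd0 hv
  have hθ1 : θ < 1 := (div_lt_one hv).2 hd1'
  obtain ⟨c, lam, hCS, hfix, hfix2⟩ := CEM hn hK1
    (mul_pos hθ0 hv1) (by nlinarith : θ * vol (T '' K) < vol (T '' K)) hs1
  have hE : IsEllipsoid ((fun x => x + c) '' (T '' K)) := by
    rcases hJ with hJ | hJ
    · obtain ⟨i, rfl⟩ := Finset.card_eq_one.1 hJ
      have hu : ‖bb n i‖ = 1 := by simp [bb]
      have h4 : sg (bb n i) '' (T '' K) = T '' K := by
        apply sg_image_of_sub hu
        intro x hx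
        rw [flip1_eq]
        exact hT x hx
      exact hmir hn hCS hu (sg_translate h4 (hfix _ hu h4))
    · obtain ⟨i, j, hij, rfl⟩ := Finset.card_eq_two.1 hJ
      have hON := Pool.Agent.Helper73.SY.on_bb (n := n) hij
      have h4 : iot (bb n i) (bb n j) '' (T '' K) = T '' K := by
        apply Pool.Agent.Helper73.SY.iot_image_of_sub hON
        intro x hx
        rw [flip2_eq hij]
        exact hT x hx
      exact half_turn hmir hn hCS hON
        (Pool.Agent.Helper73.SY.iot_translate h4 (hfix2 _ _ hON h4))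
  have e2 : (fun x => x + c) '' (T '' K) =
    aff (ContinuousLinearEquiv.refl ℝ (E n)) c '' (T '' K) := rfl
  rw [e2] at hE
  have hE3 := Pool.Agent.Helper96.LR.ell_aff _ c hE
  rw [hTK] at hE3
  exact Pool.Agent.Helper96.LR.ell_aff L (T 0) hE3

end Pool.Agent.Helper73.MI
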