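import Pool.Agent.Helper73.SY.Base
import Pool.Agent.Helper79.SY.Reg

/-!
# Bodies with one mirror symmetry, all densities: definitions (project MP_a2630c_MI)

Blueprint: `MP_a2630c_MI_blueprint.md` in the team store.
-/

open MeasureTheory Set Metric Real Filter Topology
open scoped RealInnerProductSpace ENNReal
open Pool.Agent.Helper16.Buoy (E cap IsEllipsoid Homothetic buoyancyBody)
open Pool.Agent.Helper73.HV (supp)
open Pool.Agent.Helper73.LR (CB vol GG Sol aff)
open Pool.Agent.Helper73.SY (CS Dat sg)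
open Pool.Agent.Helper79.SY (WW AA cut)

namespace Pool.Agent.Helper73.MI

section Abstract

variable {V : Type*} [NormedAddCommGroup V] [InnerProductSpace ℝ V] [FiniteDimensional ℝ V]
  [MeasurableSpace V] [BorelSpace V]

/-- `√(1 + ‖v‖²)`, the norm of `e + v`. -/
noncomputable def nn (v : V) : ℝ := √(1 + ‖v‖ ^ 2)

/-- `F` minus the square of the height of the hyperplane with normal `e + v` and level `τ v`. -/
noncomputable def Wf (F τ : V → ℝ) (v y : V) : ℝ := F y - (τ v - inner ℝ v y) ^ 2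

/-- Projection of the (open) section of the body by that hyperplane. -/
def Sv (F τ : V → ℝ) (v : V) : Set V := {y | 0 < Wf F τ v y}

/-- Mirror data: `D` is the interior of the projection of the body to the mirror, `F` the square
of half the chord orthogonal to the mirror, `(ξ v, Y v)` the support point with normal `e + v`,
`P v` the derivative of `Y`, `τ v` the level of the cap with normal `e + v`. -/
structure MD (D : Set V) (F : V → ℝ) (Y : V → V) (ξ τ : V → ℝ) (P : V → V →L[ℝ] V) (lam : ℝ) :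
    Prop where
  lpos : 0 < lam
  Dopen : IsOpen D
  Dconv : Convex ℝ D
  Dbdd : Bornology.IsBounded D
  Fcont : Continuous F
  Fpos : ∀ y ∈ D, 0 < F y
  Fzero : ∀ y, y ∉ D → F y = 0
  Fconc : ConcaveOn ℝ D (fun y => √(F y))
  Ymem : ∀ v, Y v ∈ D
  Yinj : Function.Injective Y
  Ysurj : ∀ y ∈ D, ∃ v, Y v = y
  Yder : ∀ v, HasFDerivAt Y (P v) v
  Pcont : Continuous P
  Psymm : ∀ v w w' : V, inner ℝ w (P v w') = (inner ℝ w' (P v w) : ℝ)
  xpos : ∀ v, 0 < ξ v
  xder : ∀ v, HasFDerivAt ξ (-(innerSL ℝ v).comp (P v)) v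
  FY : ∀ v, F (Y v) = ξ v ^ 2
  tcont : Continuous τ
  tup : ∀ v, τ v < ξ v + inner ℝ v (Y v)
  tlo : ∀ v, -(ξ (-v) + inner ℝ (-v) (Y (-v))) < τ v
  inert : ∀ v κ : V, ∃ c : ℝ, lam * inner ℝ κ (P v κ) = ∫ y in Sv F τ v, (inner ℝ κ y - c) ^ 2
  mom : ∀ v, 2 * lam * ξ v = ∫ y in Sv F τ v, Wf F τ v y
  Plow : ∃ c : ℝ, 0 < c ∧ ∀ v w : V, c * ‖w‖ ^ 2 ≤ nn v ^ 3 * inner ℝ w (P v w)
  svol : ∃ C : ℝ, ∀ v, nn v * (volume (Sv F τ v)).toReal ≤ C
  low : ∃ (Q : Set V) (c : ℝ), IsCompact Q ∧ Q ⊆ D ∧ 0 < c ∧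
    ∀ v, c ≤ nn v * ∫ y in Sv F τ v ∩ Q, Wf F τ v y

/-- The inverse of `Y` and of its derivative. -/
structure INV (D : Set V) (Y : V → V) (P : V → V →L[ℝ] V) (vv : V → V) (Pi : V → V →L[ℝ] V) :
    Prop where
  left : ∀ v, vv (Y v) = v
  right : ∀ y ∈ D, Y (vv y) = y
  PiP : ∀ v w, Pi v (P v w) = w
  PPi : ∀ v w, P v (Pi v w) = w
  der : ∀ v, HasFDerivAt vv (Pi v) (Y v)
  Pic : Continuous Pi

/-- The second derivative of `F` at `Y v` in the direction `a` (twice). -/
noncomputable def QQ (ξ : V → ℝ) (Pi : V → V →L[ℝ] V) (a v : V) : ℝ :=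
  2 * inner ℝ v a ^ 2 - 2 * ξ v * inner ℝ (Pi v a) a

end Abstract

/-- Centred solution with continuously differentiable support points and levels. -/
structure DatC {n : ℕ} (K : Set (E n)) (δ lam : ℝ) (X : E n → E n) (t : E n → ℝ) : Prop where
  dat : Dat K δ lam X t
  XC1 : ∀ u, u ≠ 0 → ContDiffAt ℝ 1 X u
  tC1 : ∀ u, u ≠ 0 → ContDiffAt ℝ 1 t u

/-- Integral over the section of `K` by the hyperplane of normal `u` and level `τ`, computed in
the projection along the unit vector `e`, divided by the norm of `u`. -/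
noncomputable def sec {n : ℕ} (K : Set (E n)) (e : E n) (φ : E n → ℝ) (u : E n) (τ : ℝ) : ℝ :=
  (inner ℝ u e : ℝ)⁻¹ * ∫ y : WW e, cut K φ (AA e (u, τ) (y : E n))

/-- Orthogonal projection to the mirror `WW e`. -/
noncomputable def pj {n : ℕ} (e : E n) : E n →L[ℝ] WW e := (WW e).orthogonalProjectionOnto

/-- Interior of the projection of `K` to the mirror. -/
def PD {n : ℕ} (K : Set (E n)) (e : E n) : Set (WW e) :=
  interior {y : WW e | ∃ s : ℝ, s • e + (y : E n) ∈ K}

/-- Half chord. -/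
noncomputable def RR {n : ℕ} (K : Set (E n)) (e : E n) (y : WW e) : ℝ :=
  sSup {s : ℝ | s • e + (y : E n) ∈ K}

/-- Square of the half chord. -/
noncomputable def FF {n : ℕ} (K : Set (E n)) (e : E n) (y : WW e) : ℝ := RR K e y ^ 2

/-- Base point of the support point. -/
noncomputable def YY {n : ℕ} (X : E n → E n) (e : E n) (v : WW e) : WW e := pj e (X (e + (v : E n)))

/-- Height of the support point. -/
noncomputable def xx {n : ℕ} (X : E n → E n) (e : E n) (v : WW e) : ℝ :=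
  inner ℝ e (X (e + (v : E n)))

/-- Level. -/
noncomputable def lv {n : ℕ} (t : E n → ℝ) (e : E n) (v : WW e) : ℝ := t (e + (v : E n))

/-- Derivative of the base point. -/
noncomputable def PV {n : ℕ} (X : E n → E n) (e : E n) (v : WW e) : WW e →L[ℝ] WW e :=
  (pj e).comp ((fderiv ℝ X (e + (v : E n))).comp (WW e).subtypeL)

end Pool.Agent.Helper73.MI
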