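import Pool.Agent.Helper73.MI.Asm
import Pool.Agent.Helper37.MI.Div
import Pool.Agent.Helper94.MI.Ift
import Pool.Agent.Helper56.MI.FD
import Pool.Agent.Helper56.MI.Der
import Pool.Agent.Helper49.MI.Csi
import Pool.Agent.Helper49.MI.Att
import Pool.Agent.Helper49.MI.Prp
import Pool.Agent.Helper62.MI.Qua
import Pool.Agent.Helper79.MI.Sec
import Pool.Agent.Helper79.MI.Int
import Pool.Agent.Helper82.MI.Pos
import Pool.Agent.Helper93.MI.Geo
import Pool.Agent.Helper60.MI.Bas
import Pool.Agent.Helper60.MI.Elm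
import Pool.Agent.Helper78.MI.Cem

/-!
# The mirror theorem (project MP_a2630c_MI): final assembly
-/

open MeasureTheory Set Metric Real
open scoped RealInnerProductSpace ENNReal
open Pool.Agent.Helper16.Buoy (E cap IsEllipsoid Homothetic buoyancyBody)
open Pool.Agent.Helper73.SY (CS sg)

namespace Pool.Agent.Helper73.MI

/-- A centred solution with a mirror symmetry is an ellipsoid. -/
theorem mirror_cs {n : ℕ} (hn : 1 ≤ n) {K : Set (E n)} {δ lam : ℝ} {e : E n} (hK : CS K δ lam)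
    (he : ‖e‖ = 1) (hs : sg e '' K = K) : IsEllipsoid K :=
  mirror Pool.Agent.Helper79.MI.dtc Pool.Agent.Helper93.MI.geo
    (Pool.Agent.Helper60.MI.bas Pool.Agent.Helper93.MI.geo)
    (Pool.Agent.Helper56.MI.der
      (Pool.Agent.Helper82.MI.pos Pool.Agent.Helper79.MI.sec_main Pool.Agent.Helper79.MI.hes))
    (Pool.Agent.Helper79.MI.int_main Pool.Agent.Helper79.MI.sec_main Pool.Agent.Helper79.MI.hes
      Pool.Agent.Helper93.MI.geo)
    Pool.Agent.Helper94.MI.ift
    (Pool.Agent.Helper49.MI.prp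
      (Pool.Agent.Helper49.MI.csi Pool.Agent.Helper37.MI.div Pool.Agent.Helper56.MI.fd
        Pool.Agent.Helper56.MI.bd)
      (Pool.Agent.Helper49.MI.att
        (Pool.Agent.Helper49.MI.csi Pool.Agent.Helper37.MI.div Pool.Agent.Helper56.MI.fd
          Pool.Agent.Helper56.MI.bd) Pool.Agent.Helper56.MI.bd))
    (Pool.Agent.Helper62.MI.qua Pool.Agent.Helper56.MI.fd)
    (Pool.Agent.Helper60.MI.elm Pool.Agent.Helper93.MI.geo) hn hK he hs

/-- The mirror theorem. -/
theorem mirror_bodies {n : ℕ} (hn : 1 ≤ n) {K : Set (E n)} {d : ℝ} (h1 : Convex ℝ K)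
    (h2 : IsCompact K) (h3 : (interior K).Nonempty) (hd0 : 0 < d)
    (hd1 : ENNReal.ofReal d < volume K) (hh : Homothetic K (buoyancyBody K d))
    (T : E n ≃ᵃ[ℝ] E n) (J : Finset (Fin n)) (hJ : J.card = 1 ∨ J.card = 2)
    (hT : ∀ x ∈ T '' K,
      (WithLp.toLp 2 (fun k => if k ∈ J then - x k else x k) : E n) ∈ T '' K) :
    IsEllipsoid K :=
  mirror_bodies_of Pool.Agent.Helper78.MI.cem mirror_cs hn h1 h2 h3 hd0 hd1 hh T J hJ hT

end Pool.Agent.Helper73.MI
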