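import Pool.Agent.Helper73.MI.Defs

/-!
# Statements of the modules (project MP_a2630c_MI)
-/

open MeasureTheory Set Metric Real Filter Topology
open scoped RealInnerProductSpace ENNReal
open Pool.Agent.Helper16.Buoy (E cap IsEllipsoid Homothetic buoyancyBody)
open Pool.Agent.Helper73.HV (supp)
open Pool.Agent.Helper73.LR (CB vol GG Sol aff)
open Pool.Agent.Helper73.SY (CS Dat sg)
open Pool.Agent.Helper79.SY (WW AA cut)

universe w

namespace Pool.Agent.Helper73.MI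

/-! ## Analysis on the mirror (abstract inner product space) -/

/-- (DIV) Divergence theorem for functions vanishing on the boundary. -/
def S_div : Prop := ∀ {V : Type w} [NormedAddCommGroup V] [InnerProductSpace ℝ V]
    [FiniteDimensional ℝ V] [MeasurableSpace V] [BorelSpace V] {S : Set V} {g : V → ℝ}
    {g' : V → V →L[ℝ] ℝ} {C : ℝ}, IsOpen S → Bornology.IsBounded S → volume (frontier S) = 0 →
    Continuous g → (∀ y, y ∉ S → g y = 0) → (∀ y ∈ S, HasFDerivAt g (g' y) y) →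
    (∀ y ∈ S, ‖g' y‖ ≤ C) → ∀ a : V, IntegrableOn (fun y => g' y a) S ∧ ∫ y in S, g' y a = 0

/-- (IFT) Inverse of `Y`. -/
def S_ift : Prop := ∀ {V : Type w} [NormedAddCommGroup V] [InnerProductSpace ℝ V]
    [FiniteDimensional ℝ V] [MeasurableSpace V] [BorelSpace V] {D : Set V} {F : V → ℝ} {Y : V → V}
    {ξ τ : V → ℝ} {P : V → V →L[ℝ] V} {lam : ℝ}, MD D F Y ξ τ P lam →
    ∃ (vv : V → V) (Pi : V → V →L[ℝ] V), INV D Y P vv Pi

/-- (FD) Derivatives of `F`. -/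
def S_fd : Prop := ∀ {V : Type w} [NormedAddCommGroup V] [InnerProductSpace ℝ V]
    [FiniteDimensional ℝ V] [MeasurableSpace V] [BorelSpace V] {D : Set V} {F : V → ℝ} {Y : V → V}
    {ξ τ : V → ℝ} {P : V → V →L[ℝ] V} {lam : ℝ} {vv : V → V} {Pi : V → V →L[ℝ] V},
    MD D F Y ξ τ P lam → INV D Y P vv Pi →
    (∀ v, HasFDerivAt F ((-2 * ξ v) • innerSL ℝ v) (Y v)) ∧
      ∀ a v, HasFDerivAt (fun y => -2 * ξ (vv y) * inner ℝ (vv y) a)
        ((2 * inner ℝ v a) • innerSL ℝ v - (2 * ξ v) • (innerSL ℝ a).comp (Pi v)) (Y v)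

/-- (BD) Bounds. -/
def S_bd : Prop := ∀ {V : Type w} [NormedAddCommGroup V] [InnerProductSpace ℝ V]
    [FiniteDimensional ℝ V] [MeasurableSpace V] [BorelSpace V] {D : Set V} {F : V → ℝ} {Y : V → V}
    {ξ τ : V → ℝ} {P : V → V →L[ℝ] V} {lam : ℝ} {vv : V → V} {Pi : V → V →L[ℝ] V},
    MD D F Y ξ τ P lam → INV D Y P vv Pi →
    ∃ C : ℝ, 0 < C ∧ (∀ v, ξ v * nn v ≤ C) ∧ (∀ v, ξ v ^ 3 * ‖Pi v‖ ≤ C) ∧
      (∀ v, F v ≤ C)

/-- (CSI) The main inequality: the second derivative of `F` at `Y v` is at least its average over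
the section `Sv F τ v` with weight `Wf F τ v`. -/
def S_csi : Prop := ∀ {V : Type w} [NormedAddCommGroup V] [InnerProductSpace ℝ V]
    [FiniteDimensional ℝ V] [MeasurableSpace V] [BorelSpace V] {D : Set V} {F : V → ℝ} {Y : V → V}
    {ξ τ : V → ℝ} {P : V → V →L[ℝ] V} {lam : ℝ} {vv : V → V} {Pi : V → V →L[ℝ] V},
    MD D F Y ξ τ P lam → INV D Y P vv Pi → ∀ a v : V,
    IntegrableOn (fun y => Wf F τ v y * QQ ξ Pi a (vv y)) (Sv F τ v) ∧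
      ∫ y in Sv F τ v, Wf F τ v y * QQ ξ Pi a (vv y) ≤
        QQ ξ Pi a v * ∫ y in Sv F τ v, Wf F τ v y

/-- (ATT) The minimum is attained. -/
def S_att : Prop := ∀ {V : Type w} [NormedAddCommGroup V] [InnerProductSpace ℝ V]
    [FiniteDimensional ℝ V] [MeasurableSpace V] [BorelSpace V] {D : Set V} {F : V → ℝ} {Y : V → V}
    {ξ τ : V → ℝ} {P : V → V →L[ℝ] V} {lam : ℝ} {vv : V → V} {Pi : V → V →L[ℝ] V},
    MD D F Y ξ τ P lam → INV D Y P vv Pi → ∀ a : V, ∃ v0, ∀ v, QQ ξ Pi a v0 ≤ QQ ξ Pi a v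

/-- (PRP) The second derivative in the direction `a` is constant. -/
def S_prp : Prop := ∀ {V : Type w} [NormedAddCommGroup V] [InnerProductSpace ℝ V]
    [FiniteDimensional ℝ V] [MeasurableSpace V] [BorelSpace V] {D : Set V} {F : V → ℝ} {Y : V → V}
    {ξ τ : V → ℝ} {P : V → V →L[ℝ] V} {lam : ℝ} {vv : V → V} {Pi : V → V →L[ℝ] V},
    MD D F Y ξ τ P lam → INV D Y P vv Pi → ∀ a v : V, QQ ξ Pi a v = QQ ξ Pi a 0

/-- (QUA) `F` is quadratic. -/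
def S_qua : Prop := ∀ {V : Type w} [NormedAddCommGroup V] [InnerProductSpace ℝ V]
    [FiniteDimensional ℝ V] [MeasurableSpace V] [BorelSpace V] {D : Set V} {F : V → ℝ} {Y : V → V}
    {ξ τ : V → ℝ} {P : V → V →L[ℝ] V} {lam : ℝ} {vv : V → V} {Pi : V → V →L[ℝ] V},
    MD D F Y ξ τ P lam → INV D Y P vv Pi → (∀ a v : V, QQ ξ Pi a v = QQ ξ Pi a 0) →
    ∃ (M : V ≃L[ℝ] V) (y0 : V) (c : ℝ), 0 < c ∧ (∀ y, y ∈ D ↔ ‖M (y - y0)‖ ^ 2 < c) ∧
      ∀ y ∈ D, F y = c - ‖M (y - y0)‖ ^ 2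

/-! ## From the body to the mirror data -/

/-- (DTC) Differentiability. -/
def S_dtc : Prop := ∀ {n : ℕ} {K : Set (E n)} {δ lam : ℝ} {X : E n → E n} {t : E n → ℝ},
    1 ≤ n → Dat K δ lam X t → DatC K δ lam X t

/-- (SEC) Section integrals. -/
def S_sec : Prop := ∀ {n : ℕ} {K : Set (E n)} {δ lam : ℝ} {X : E n → E n} {t : E n → ℝ},
    DatC K δ lam X t → ∀ φ : E n → ℝ, Continuous φ → ∃ J : E n → ℝ, ContinuousOn J {0}ᶜ ∧
      (∀ e u, ‖e‖ = 1 → 0 < (inner ℝ u e : ℝ) → J u = sec K e φ u (t u)) ∧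
      (∀ (u : E n) (c : ℝ), u ≠ 0 → 0 < c → J (c • u) = c⁻¹ * J u) ∧
      ((∀ x ∈ K, 0 ≤ φ x) → ∀ u, u ≠ 0 →
        (∃ x ∈ interior K, inner ℝ u x = t u ∧ 0 < φ x) → 0 < J u)

/-- (HES) The second derivative of the support function is the inertia of the section. -/
def S_hes : Prop := ∀ {n : ℕ} {K : Set (E n)} {δ lam : ℝ} {X : E n → E n} {t : E n → ℝ},
    DatC K δ lam X t → ∀ e u : E n, ‖e‖ = 1 → 0 < (inner ℝ u e : ℝ) → ∃ g : E n, ∀ z z' : E n,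
      lam * inner ℝ z (fderiv ℝ X u z') = sec K e (fun x => inner ℝ z (x - g) * inner ℝ z' (x - g)) u (t u)

/-- (POS) Uniform positivity of the second derivative. -/
def S_pos : Prop := ∀ {n : ℕ} {K : Set (E n)} {δ lam : ℝ} {X : E n → E n} {t : E n → ℝ},
    DatC K δ lam X t → (∀ (u : E n) (z z' : E n), u ≠ 0 →
        inner ℝ z (fderiv ℝ X u z') = (inner ℝ z' (fderiv ℝ X u z) : ℝ)) ∧
      (∀ u z : E n, u ≠ 0 → inner ℝ u (fderiv ℝ X u z) = (0 : ℝ)) ∧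
      (∀ (u z : E n) (c : ℝ), u ≠ 0 → 0 < c → fderiv ℝ X (c • u) z = c⁻¹ • fderiv ℝ X u z) ∧
      ∃ c : ℝ, 0 < c ∧ ∀ u z : E n, ‖u‖ = 1 → inner ℝ u z = (0 : ℝ) →
        c * ‖z‖ ^ 2 ≤ inner ℝ z (fderiv ℝ X u z)

/-- (GEO) Geometry of the fibres. -/
def S_geo : Prop := ∀ {n : ℕ} {K : Set (E n)} {δ lam : ℝ} {X : E n → E n} {t : E n → ℝ} {e : E n},
    Dat K δ lam X t → ‖e‖ = 1 → sg e '' K = K →
    (∀ (s : ℝ) (y : WW e), s • e + (y : E n) ∈ K ↔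
      (∃ s' : ℝ, s' • e + (y : E n) ∈ K) ∧ s ^ 2 ≤ FF K e y) ∧
    (∀ (s : ℝ) (y : WW e), s • e + (y : E n) ∈ interior K ↔ y ∈ PD K e ∧ s ^ 2 < FF K e y) ∧
    (∀ y, 0 ≤ RR K e y) ∧ Convex ℝ (PD K e) ∧ Bornology.IsBounded (PD K e) ∧
    Continuous (FF K e) ∧ (∀ y ∈ PD K e, 0 < FF K e y) ∧ (∀ y, y ∉ PD K e → FF K e y = 0) ∧
    ConcaveOn ℝ (PD K e) (RR K e)

/-- (BAS) Base points. -/
def S_bas : Prop := ∀ {n : ℕ} {K : Set (E n)} {δ lam : ℝ} {X : E n → E n} {t : E n → ℝ} {e : E n},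
    Dat K δ lam X t → ‖e‖ = 1 → sg e '' K = K →
    (∀ v, YY X e v ∈ PD K e) ∧ Function.Injective (YY X e) ∧
    (∀ y ∈ PD K e, ∃ v, YY X e v = y) ∧ (∀ v, 0 < xx X e v) ∧
    (∀ v, FF K e (YY X e v) = xx X e v ^ 2) ∧ Continuous (lv t e) ∧
    (∀ v, lv t e v < xx X e v + inner ℝ v (YY X e v)) ∧
    (∀ v, -(xx X e (-v) + inner ℝ (-v) (YY X e (-v))) < lv t e v)

/-- (DER) Derivatives of the base points (`S_pos` may be used as a hypothesis). -/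
def S_der : Prop := ∀ {n : ℕ} {K : Set (E n)} {δ lam : ℝ} {X : E n → E n} {t : E n → ℝ} {e : E n},
    DatC K δ lam X t → ‖e‖ = 1 →
    (∀ v, HasFDerivAt (YY X e) (PV X e v) v) ∧ Continuous (PV X e) ∧
    (∀ v w w' : WW e, inner ℝ w (PV X e v w') = (inner ℝ w' (PV X e v w) : ℝ)) ∧
    (∀ v, HasFDerivAt (xx X e) (-(innerSL ℝ v).comp (PV X e v)) v) ∧
    ∃ c : ℝ, 0 < c ∧ ∀ v w : WW e, c * ‖w‖ ^ 2 ≤ nn v ^ 3 * inner ℝ w (PV X e v w)

/-- (INT) The two integral identities and the bounds for the sections. -/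
def S_int : Prop := ∀ {n : ℕ} {K : Set (E n)} {δ lam : ℝ} {X : E n → E n} {t : E n → ℝ} {e : E n},
    DatC K δ lam X t → ‖e‖ = 1 → sg e '' K = K →
    (∀ v κ : WW e, ∃ c : ℝ, lam * inner ℝ κ (PV X e v κ) =
      ∫ y in Sv (FF K e) (lv t e) v, (inner ℝ κ y - c) ^ 2) ∧
    (∀ v, 2 * lam * xx X e v = ∫ y in Sv (FF K e) (lv t e) v, Wf (FF K e) (lv t e) v y) ∧
    (∃ C : ℝ, ∀ v, nn v * (volume (Sv (FF K e) (lv t e) v)).toReal ≤ C) ∧
    (∃ (Q : Set (WW e)) (c : ℝ), IsCompact Q ∧ Q ⊆ PD K e ∧ 0 < c ∧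
      ∀ v, c ≤ nn v * ∫ y in Sv (FF K e) (lv t e) v ∩ Q, Wf (FF K e) (lv t e) v y)

/-- (CEM) The centred translate respects mirror symmetries as well. -/
def S_cem : Prop := ∀ {n : ℕ} {K : Set (E n)} {d : ℝ}, 1 ≤ n → CB K → 0 < d → d < vol K →
    Sol K d → ∃ (c : E n) (lam : ℝ), CS ((fun x => x + c) '' K) d lam ∧
      (∀ e : E n, ‖e‖ = 1 → sg e '' K = K → sg e c = c) ∧
      ∀ a b : E n, Pool.Agent.Helper73.SY.ON a b → Pool.Agent.Helper73.SY.iot a b '' K = K →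
        Pool.Agent.Helper73.SY.iot a b c = c

/-- (ELM) Conclusion: a mirror symmetric body with quadratic `F` is an ellipsoid. -/
def S_elm : Prop := ∀ {n : ℕ} {K : Set (E n)} {δ lam : ℝ} {X : E n → E n} {t : E n → ℝ} {e : E n},
    Dat K δ lam X t → ‖e‖ = 1 → sg e '' K = K →
    (∃ (M : WW e ≃L[ℝ] WW e) (y0 : WW e) (c : ℝ), 0 < c ∧
      (∀ y, y ∈ PD K e ↔ ‖M (y - y0)‖ ^ 2 < c) ∧
      ∀ y ∈ PD K e, FF K e y = c - ‖M (y - y0)‖ ^ 2) → IsEllipsoid K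

end Pool.Agent.Helper73.MI
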